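import Pool.Agent.H74.OneP.UStmts

/-! Module U9 of the project ONEP: all orders obtained from a base drawing. -/

namespace Pool.Agent.H74.OneP

open Equiv Equiv.Perm Drawing

theorem lens_two {M : Drawing} {a : M.D} (ha : M.LensD a) :
    ∀ t, ¬ M.cr t → M.fac t = M.fac a → M.org t = M.org a ∨ M.org t = M.org (M.nxt a) := by
  classical
  obtain ⟨h1, h2, _, h4⟩ := ha
  have h5 : M.cr (M.rev (M.nxt a)) ∧ M.nxt (M.nxt (M.nxt a)) = a := by
    unfold gs at h4
    rw [rev_rev'] at h4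
    rcases h4 with h | h
    · exact absurd h h1
    · exact ⟨h.2.1, h.2.2⟩
  intro t ht hf
  have key : ∀ d, M.fac d = M.fac a →
      ((M.nxt d = a ∨ M.nxt d = M.nxt a ∨ M.nxt d = M.nxt (M.nxt a)) ↔
        (d = a ∨ d = M.nxt a ∨ d = M.nxt (M.nxt a))) := by
    intro d _
    constructor
    · rintro (h | h | h)
      · right; right
        apply M.nxt.injective
        rw [h, h5.2]
      · left; exact M.nxt.injective h
      · right; left; exact M.nxt.injective h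
    · rintro (rfl | rfl | rfl)
      · right; left; rfl
      · right; right; rfl
      · left; exact h5.2
  have := const_of_nxt (M := M)
    (f := fun d => (d = a ∨ d = M.nxt a ∨ d = M.nxt (M.nxt a))) (p := M.fac a)
    (fun d hd => propext (key d hd)) hf rfl
  have h6 : t = a ∨ t = M.nxt a ∨ t = M.nxt (M.nxt a) := by
    have h7 : (a = a ∨ a = M.nxt a ∨ a = M.nxt (M.nxt a)) := Or.inl rfl
    exact (iff_of_eq this).2 h7
  rcases h6 with rfl | rfl | rfl
  · left; rfl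
  · right; rfl
  · exfalso
    apply ht
    rw [cr_congr (org_nxt (M.nxt a))]
    exact h5.1

theorem u9 (h1 : ExactStmt) (h4 : ConeValidStmt) (h5 : ConeGoodStmt) (h6 : CutStmt)
    (h7 : S1Stmt) (h8 : S2Stmt) : FillStmt := by
  intro c v l t hb hl n hn hn2
  obtain ⟨M, G, hX, hV, A, B, hA, hB, hAl, hBt⟩ := hb
  have hAfin : A.Finite := Set.toFinite _
  have hBfin : B.Finite := Set.toFinite _
  rw [Nat.card_coe_set_eq] at hAl hBt
  -- choose the subsets
  obtain ⟨A', hA'A, hA'c⟩ := Set.exists_subset_card_eq (s := A) (n := min (n - v) l)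
    (by rw [hAl]; exact min_le_right _ _)
  obtain ⟨B', hB'B, hB'c⟩ := Set.exists_subset_card_eq (s := B) (n := min (n - v - A'.ncard) t)
    (by rw [hBt]; exact min_le_right _ _)
  obtain ⟨A₂, hA₂A', hA₂c⟩ := Set.exists_subset_card_eq (s := A')
    (n := n - v - A'.ncard - B'.ncard) (by rw [hB'c, hA'c]; omega)
  have hsum : v + (A'.ncard + B'.ncard) + A₂.ncard = n := by
    rw [hA₂c, hB'c, hA'c]; omega
  have hpos : 0 < A'.ncard := by rw [hA'c]; omega
  have hne : A'.Nonempty := by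
    rw [← Set.ncard_pos (Set.toFinite _)]; exact hpos
  obtain ⟨a₀, ha₀⟩ := hne
  obtain ⟨ok1, hc1⟩ := h7 M G A' B' (fun a ha => ⟨(hA a (hA'A ha)).1, fun h => (hA a (hA'A ha)).2 (hA'A h)⟩) (fun f hf => hB f (hB'B hf))
  set S : Set M.F := {f | (∃ a ∈ A', f = M.fac a) ∨ f ∈ B'} with hS
  have ex1 : (M.cone S).Exact := h1 _ (h4 M G S ok1)
  have G2 : ((M.cone S).toDrawing ex1).Good := h5 M G S ok1 ex1
  have cut2 : Cut2 ((M.cone S).toDrawing ex1).graph := by
    refine h6.2.2 M G S ok1 ex1 ⟨M.fac a₀, Or.inl ⟨a₀, ha₀, rfl⟩, M.org a₀, M.org (M.nxt a₀), ?_⟩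
    exact lens_two (hA a₀ (hA'A ha₀)).1
  obtain ⟨ok2, hc2⟩ := h8 M G S ok1 ex1 A₂ (fun a ha =>
    ⟨Or.inl ⟨a, hA₂A' ha, rfl⟩, (hA a (hA'A (hA₂A' ha))).1⟩)
  have ex2 : (((M.cone S).toDrawing ex1).cone (S2 M S ex1 A₂)).Exact :=
    h1 _ (h4 _ G2 _ ok2)
  have G3 := h5 _ G2 _ ok2 ex2
  have cut3 := h6.2.1 _ G2 _ ok2 ex2 cut2
  refine ⟨_, G3.simple, G3.maximal, G3.conn2, h6.1 _ _ cut3, ?_, hX⟩
  have e1 : Nat.card ((M.cone S).toDrawing ex1).V = Nat.card M.V + Nat.card S := by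
    show Nat.card (M.V ⊕ S) = _
    exact Nat.card_sum
  have e2 : Nat.card ((((M.cone S).toDrawing ex1).cone (S2 M S ex1 A₂)).toDrawing ex2).V =
      Nat.card ((M.cone S).toDrawing ex1).V + Nat.card (S2 M S ex1 A₂) := by
    show Nat.card (((M.cone S).toDrawing ex1).V ⊕ (S2 M S ex1 A₂)) = _
    exact Nat.card_sum
  rw [e2, e1, hc2, hc1, hV]
  simp only [Nat.card_coe_set_eq]
  exact hsum

end Pool.Agent.H74.OneP
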